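import Pool.Agent.BKT.TwistAll
import Pool.Agent.BK.ReductionGal
import Pool.Agent.BK.Bridge
import Pool.Agent.BK.BridgeGal

/-!
The order of vanishing formula for the twists of a system by all Artin representations of all
number fields, from the formula for the system itself over fields of a restricted class.
-/

open scoped Pointwise NumberField
open Polynomial IsDedekindDomain

namespace Pool.Agent.Results.MP_ec4e4b_nt.ArtinTwists

open Pool.BK

/-- Let `V` be a system of representations of the Galois group of the number field `K`, `F / K` a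
finite extension, `C` a class of finite extensions of `K` closed under passing to larger fields,
`X` a set of extensions of `K` with finitely many members of each degree, `D` a finite nonempty set
of positive integers. Suppose that the formula holds for `V` over every `L` in `C`, not in `X`, of
degree divisible by some `d` in `D`, such that `M / L` is hyperelementary for some finite Galois
extension `M / K` containing `F` and `L`. Then for all `L` in `C` and all Artin representations
`θ` of the Galois group of `L` over the rational numbers the formula holds for the twist of `V` by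
`θ` over `L`, for the power `m * gcd D` of its L-function, whenever `m` times the character of `θ`
is an integral combination of permutation characters; and such `m` exist. -/
theorem result (K : Type) [Field K] [NumberField K] (Ω : Type) [Field Ω] [Algebra K Ω]
    [IsAlgClosed Ω] [Algebra.IsAlgebraic K Ω] (V : LSystem (Ω ≃ₐ[K] Ω))
    (B : ∀ (p : ℕ) [Fact p.Prime], PeriodData (Ω ≃ₐ[K] Ω) (𝓞 Ω) p)
    (F : IntermediateField K Ω) [NumberField F]
    (C : IntermediateField K Ω → Prop) (hC : ∀ L L', L ≤ L' → C L → C L')
    (X : Set (IntermediateField K Ω))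
    (hX : ∀ n : ℕ, 0 < n → {L | L ∈ X ∧ Module.finrank K L = n}.Finite)
    (D : Finset ℕ) (hD : D.Nonempty) (hpos : ∀ d ∈ D, 0 < d)
    (h : ∀ (L : IntermediateField K Ω) [NumberField L], C L → L ∉ X →
      (∃ d ∈ D, d ∣ Module.finrank K L) → HyperIn F L →
      Formula L Ω (V.res L) (fun p _ => (B p).res L) 1)
    (L : IntermediateField K Ω) [NumberField L] (hL : C L) {r : ℕ}
    (θ : (Ω ≃ₐ[L] Ω) →* Matrix (Fin r) (Fin r) ℚ) (hθ : IsOpen (θ.ker : Set (Ω ≃ₐ[L] Ω))) :
    (∃ m : ℕ, 0 < m ∧ IsPermMultiple θ m) ∧ ∀ m : ℕ, 0 < m → IsPermMultiple θ m →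
      Formula L Ω ((V.res L).twist θ hθ) (fun p _ => (B p).res L) (m * D.gcd id) := by
  have halg : ∀ L : IntermediateField K Ω, Algebra.IsAlgebraic L Ω := fun L =>
    Algebra.IsAlgebraic.tower_top (K := K) L
  refine ⟨exists_permMultiple L Ω θ hθ, fun m hm hp => (formula_iff L Ω _ _ _).2 ?_⟩
  have h2 := reduction_gal K Ω V B F C hC X hX D hD hpos (fun M _ h1 h2 h3 h4 =>
    (formula_iff M Ω _ _ 1).1 (h M h1 h2 h3 (BridgeGal.exists_field
      (fun Γ _ => IsHyperelementary Γ) (fun Γ Γ' _ _ f hf hΓ => Solomon.of_injective f hf hΓ)
      F M h4)))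
  refine twist_perm L Ω (V.res L) (fun p _ => (B p).res L) θ hθ (D.gcd id) (fun E _ => ?_) m hm hp
  have hnf : NumberField (E.restrictScalars K) := ‹NumberField E›
  have hle : L ≤ E.restrictScalars K := by
    intro x hx
    exact E.algebraMap_mem ⟨x, hx⟩
  exact h2 (E.restrictScalars K) (hC _ _ hle hL)

end Pool.Agent.Results.MP_ec4e4b_nt.ArtinTwists
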