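import Pool.Agent.Helper95.BK.Defs2

/-!
Twists of systems of `l`-adic representations by representations over the rational numbers with
finite image (Artin representations).
-/

open scoped Pointwise NumberField
open Polynomial IsDedekindDomain

namespace Pool.BK

section Twist

variable {G : Type} [Group G] {F : Type} [Field F] [CharZero F] {n r : ℕ}

/-- The tensor product of a representation over `F` and a representation over `ℚ`, in matrix form:
the Kronecker product of the matrices. -/
noncomputable def tensorRep (ρ : G →* Matrix (Fin n) (Fin n) F)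
    (θ : G →* Matrix (Fin r) (Fin r) ℚ) : G →* Matrix (Fin (n * r)) (Fin (n * r)) F where
  toFun g := Matrix.reindex finProdFinEquiv finProdFinEquiv
    (Matrix.kroneckerMap (· * ·) (ρ g) ((θ g).map (algebraMap ℚ F)))
  map_one' := by
    rw [map_one, map_one, Matrix.map_one _ (map_zero _) (map_one _), Matrix.one_kronecker_one]
    simp
  map_mul' g h := by
    rw [map_mul, map_mul, Matrix.map_mul, Matrix.mul_kronecker_mul]
    exact (Matrix.reindexAlgEquiv F F finProdFinEquiv).map_mul _ _

theorem tensorRep_apply (ρ : G →* Matrix (Fin n) (Fin n) F)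
    (θ : G →* Matrix (Fin r) (Fin r) ℚ) (g : G) (i j : Fin n) (k l : Fin r) :
    tensorRep ρ θ g (finProdFinEquiv (i, k)) (finProdFinEquiv (j, l)) =
      ρ g i j * algebraMap ℚ F (θ g k l) := by
  simp [tensorRep, Matrix.kroneckerMap]

variable [TopologicalSpace G] [IsTopologicalGroup G]

/-- The twist of a system of `l`-adic representations by a representation over `ℚ` with open
kernel. -/
noncomputable def LSystem.twist (V : LSystem G) (θ : G →* Matrix (Fin r) (Fin r) ℚ)
    (hθ : IsOpen (θ.ker : Set G)) : LSystem G where
  dim l := V.dim l * r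
  rep l _ := tensorRep (V.rep l) θ
  cont l _ := by
    have h1 : Continuous fun g => (θ g).map (algebraMap ℚ ℚ_[l]) := by
      refine continuous_iff_continuousAt.2 fun g => ?_
      have h2 : (fun x => (θ x).map (algebraMap ℚ ℚ_[l])) =ᶠ[nhds g]
          fun _ => (θ g).map (algebraMap ℚ ℚ_[l]) := by
        have h3 : {x | g⁻¹ * x ∈ (θ.ker : Set G)} ∈ nhds g := by
          refine (hθ.preimage (continuous_const_mul g⁻¹)).mem_nhds ?_
          change g⁻¹ * g ∈ (θ.ker : Set G)
          rw [inv_mul_cancel]
          exact one_mem _
        filter_upwards [h3] with x hx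
        have h4 : θ (g⁻¹ * x) = 1 := hx
        have h5 : θ x = θ g := by
          have : x = g * (g⁻¹ * x) := by group
          rw [this, map_mul, h4, mul_one]
        rw [h5]
      exact (continuousAt_congr h2).2 continuousAt_const
    have h2 : Continuous fun g => tensorRep (V.rep l) θ g := by
      refine continuous_matrix fun i j => ?_
      have h3 : ∀ g, tensorRep (V.rep l) θ g i j =
          V.rep l g (finProdFinEquiv.symm i).1 (finProdFinEquiv.symm j).1 *
          (θ g).map (algebraMap ℚ ℚ_[l]) (finProdFinEquiv.symm i).2 (finProdFinEquiv.symm j).2 := by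
        intro g
        have h4 := tensorRep_apply (V.rep l) θ g (finProdFinEquiv.symm i).1
          (finProdFinEquiv.symm j).1 (finProdFinEquiv.symm i).2 (finProdFinEquiv.symm j).2
        rw [Prod.mk.eta, Prod.mk.eta, Equiv.apply_symm_apply, Equiv.apply_symm_apply] at h4
        rw [h4]
        rfl
      simp only [h3]
      exact ((V.cont l).matrix_elem _ _).mul (h1.matrix_elem _ _)
    exact h2

end Twist

/-- The `m`-th multiple of the character of `θ` is an integral combination of the permutation
characters of the Galois group of `K` on the sets of `K`-embeddings of number fields. -/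
def IsPermMultiple {K Ω : Type} [Field K] [Field Ω] [Algebra K Ω] {r : ℕ}
    (θ : (Ω ≃ₐ[K] Ω) →* Matrix (Fin r) (Fin r) ℚ) (m : ℕ) : Prop :=
  ∃ (k : ℕ) (E : Fin k → IntermediateField K Ω) (a : Fin k → ℤ), (∀ i, NumberField (E i)) ∧
    ∀ g : Ω ≃ₐ[K] Ω, ∑ i, (a i : ℚ) * (fixCount (E i).fixingSubgroup g : ℚ) = m * (θ g).trace

end Pool.BK
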