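import Pool.Agent.Helper67.BKT.Defs
import Pool.Agent.Helper67.BKS.Defs

/-!
Short names for the assertions that occur in the reduction theorems.
-/

open scoped Pointwise NumberField
open Polynomial IsDedekindDomain

namespace Pool.BK

namespace Short

variable {K Ω : Type} [Field K] [NumberField K] [Field Ω] [Algebra K Ω]

/-- The order of vanishing formula, for the `m`-th power of the L-function, for the restriction of
the system `V` to the number field `L` between `K` and `Ω`. -/
def BKOver (V : LSystem (Ω ≃ₐ[K] Ω))
    (B : ∀ (p : ℕ) [Fact p.Prime], PeriodData (Ω ≃ₐ[K] Ω) (𝓞 Ω) p)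
    (m : ℕ) (L : IntermediateField K Ω) [NumberField L] : Prop :=
  BKpow L Ω (V.res L) (fun p _ => (B p).res L) m

/-- The Galois group of `L F / L` is hyperelementary; `F / K` is a Galois extension and the
group is identified with its image in `Gal(F / K)`. -/
def HyperOver (F : IntermediateField K Ω) [Normal K F] (L : IntermediateField K Ω) : Prop :=
  IsHyperelementary (L.fixingSubgroup.map (AlgEquiv.restrictNormalHom F))

/-- The class `C` of fields is closed under passing to larger fields. -/
def UpClosed (C : IntermediateField K Ω → Prop) : Prop := ∀ L L', L ≤ L' → C L → C L'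

/-- `X` contains only finitely many fields of each positive degree over `K`. -/
def FewOfEachDegree (X : Set (IntermediateField K Ω)) : Prop :=
  ∀ n : ℕ, 0 < n → {L | L ∈ X ∧ Module.finrank K L = n}.Finite

/-- The fields `L` of the class `C` such that `L F / L` is hyperelementary and the degree of `L`
over `K` is divisible by a member of `D`. -/
def InClass (F : IntermediateField K Ω) [Normal K F] (C : IntermediateField K Ω → Prop)
    (D : Finset ℕ) (L : IntermediateField K Ω) : Prop :=
  C L ∧ HyperOver F L ∧ ∃ d ∈ D, d ∣ Module.finrank K L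

/-- The order of vanishing formula, for the `m`-th power of the L-function, for the twist by `θ`
of the restriction of `V` to `L`. -/
def BKTwistOver (V : LSystem (Ω ≃ₐ[K] Ω))
    (B : ∀ (p : ℕ) [Fact p.Prime], PeriodData (Ω ≃ₐ[K] Ω) (𝓞 Ω) p)
    (m : ℕ) (L : IntermediateField K Ω) [NumberField L] {r : ℕ}
    (θ : (Ω ≃ₐ[L] Ω) →* Matrix (Fin r) (Fin r) ℚ) (hθ : IsOpen (θ.ker : Set (Ω ≃ₐ[L] Ω))) :
    Prop :=
  BKpow L Ω ((V.res L).twist θ hθ) (fun p _ => (B p).res L) m

end Short

end Pool.BK
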